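import Pool.Agent.Lib.MP_1a91b9_nuX.TH.Main
import Pool.Agent.Lib.MP_1a91b9_nuX.UF.Top

/-!
# Theorem G5: all the curves with complex multiplication by a maximal order of class number one

As `UF.thmG`, without the condition on the ramification of the base field and for all the curves `W` over `N` which become
isomorphic to the given curve over `L`.
-/

set_option autoImplicit false

namespace Pool.Agent.Lib.MP_1a91b9_nuX.UG

open NumberField IsDedekindDomain Module WeierstrassCurve Pool.Agent.Lib.MP_1a91b9_nuT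
open Pool.Agent.Lib.MP_1a91b9_nuX.UF (jd jd_mem jd_disc jd_case)
open Pool.Agent.Lib.MP_1a91b9_nuX.TH (TowH)

/-- **Theorem G5.** -/
theorem thmG (K₀ N₀ F₀ L₀ : Type) [Field K₀] [NumberField K₀] [Field N₀] [NumberField N₀]
    [Field F₀] [NumberField F₀] [Field L₀] [NumberField L₀] [DecidableEq L₀] [Algebra K₀ F₀]
    [Algebra N₀ F₀] [Algebra K₀ L₀] [Algebra F₀ L₀] [IsScalarTower K₀ F₀ L₀]
    (hK : finrank ℚ K₀ = 2) {J d A B c : ℤ} (hJd : (J, d) ∈ jd)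
    (hd : ∃ w : K₀, w ^ 2 = ((d : ℤ) : K₀)) (hAB : 4 * A ^ 3 + 27 * B ^ 2 ≠ 0)
    (hj : 6912 * A ^ 3 = J * (4 * A ^ 3 + 27 * B ^ 2)) (hc : c ≠ 0)
    (hN : IntermediateField.adjoin N₀ (Set.range (algebraMap K₀ F₀)) = ⊤) (x y : L₀)
    (hxy : (⟨0, 0, 0, ((A : ℤ) : L₀), ((B : ℤ) : L₀)⟩ :
      WeierstrassCurve L₀).toAffine.Nonsingular x y)
    (ht : IsOfFinAddOrder (Affine.Point.some x y hxy))
    (hL₀ : IntermediateField.adjoin K₀ {x, y} = ⊤)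
    (hg : ∃ g : ℂ → ℂ, Differentiable ℂ g ∧ (∀ s : ℂ, 3 / 2 < s.re →
      g s = (⟨0, 0, 0, ((A : ℤ) : N₀), ((B : ℤ) : N₀)⟩ : WeierstrassCurve N₀).LSeries s) ∧
      g 1 ≠ 0) :
    ∃ S : Finset ℕ, ∀ ℓ : ℕ, ℓ.Prime → ℓ ∉ S → TowH ℓ A B c F₀ := by
  have hJ : J ∈ UF.jList.map Prod.fst := jd_mem hJd
  obtain ⟨tr, nm, -, hg', u, hu, cd, -, hmem, htr, hnm, hA, hB, -, -, -⟩ :=
    UF.exists_cd hAB hj hJ 1 one_ne_zero
  subst htr
  subst hnm
  have hdd : d = CD.tr ^ 2 - 4 * CD.nm := jd_disc hJd hmem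
  have hcase := jd_case hmem
  have hE := HW.ellK_all hcase
  obtain ⟨f, p, hp⟩ := HW.hdat_all hcase
  let iH : HC := ⟨f, p, hp⟩
  obtain ⟨w, hw⟩ := hd
  have hw' : ((w + (CD.tr : K₀)) / 2) ^ 2 =
      (CD.tr : K₀) * ((w + (CD.tr : K₀)) / 2) - (CD.nm : K₀) := by
    rw [hdd] at hw
    push_cast at hw
    linear_combination hw / 4
  exact TH.thmX hE K₀ N₀ F₀ L₀ hK hw' (k := u) hu hA hB hc hN x y hxy ht hL₀ hg

end Pool.Agent.Lib.MP_1a91b9_nuX.UG
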